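import Pool.Agent.KTK.Stmts2
import Pool.Agent.Helper88_KTK.KAT

/-!
# KTK, row QKA: the quantitative Katok step
-/

set_option autoImplicit false

namespace Pool.Agent.KTK.H60

open Pool.Agent.PRT Pool.Agent.KTK
open scoped ContDiff

/-- subadditivity for multiples -/
theorem mul_sub {a : ℕ → ℝ} (hs : ∀ m n : ℕ, a (m + n) ≤ a m + a n) (m : ℕ) :
    ∀ N : ℕ, 1 ≤ N → a (m * N) ≤ N * a m := by
  intro N hN
  induction N, hN using Nat.le_induction with
  | base => simp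
  | succ N hN ih =>
    have := hs (m * N) m
    have e : m * (N + 1) = m * N + m := by ring
    rw [e]
    push_cast
    linarith

theorem mg_zero {F : E → E} (h : ∃ z, ‖fderiv ℝ (F^[0]) z‖ = Real.exp (mg F 0)) : mg F 0 ≤ 0 := by
  obtain ⟨z, hz⟩ := h
  have e : fderiv ℝ (F^[0]) z = ContinuousLinearMap.id ℝ E := by
    rw [Function.iterate_zero]
    exact fderiv_id
  rw [e] at hz
  have h1 : ‖ContinuousLinearMap.id ℝ E‖ ≤ 1 := ContinuousLinearMap.norm_id_le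
  rw [hz] at h1
  exact Real.exp_le_one_iff.1 h1

/-- the size of the pigeonhole bound -/
theorem big (K C2 a1 am C0 : ℝ) (m : ℕ) (hm : 1 ≤ m) (hK : 0 < K) (hC2 : 1 ≤ C2)
    (ham : am ≤ m * a1) (hC0 : 0 < C0) (hC0' : C0 ≤ Real.exp (C2 * m)) :
    2 * (K * (5000 * (1 + C0) * Real.exp (3 * (am + Real.log 2))) ^ 6) ≤
      Real.exp ((2 * 10 ^ 24 * K + 6 * C2 + 18 * a1 + 18) * m) := by
  have hm' : (1 : ℝ) ≤ m := by exact_mod_cast hm
  have hl2 : Real.log 2 ≤ 1 := by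
    have := Real.log_two_lt_d9
    linarith
  have h1 : 1 + C0 ≤ 2 * Real.exp (C2 * m) := by
    have : (1 : ℝ) ≤ Real.exp (C2 * m) := Real.one_le_exp (by positivity)
    linarith
  have h2 : Real.exp (3 * (am + Real.log 2)) ≤ Real.exp (3 * (m * a1 + m)) := by
    apply Real.exp_le_exp.2
    linarith
  have h3 : 5000 * (1 + C0) * Real.exp (3 * (am + Real.log 2)) ≤
      10 ^ 4 * Real.exp (C2 * m + 3 * (m * a1 + m)) := by
    calc 5000 * (1 + C0) * Real.exp (3 * (am + Real.log 2))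
        ≤ 5000 * (2 * Real.exp (C2 * m)) * Real.exp (3 * (m * a1 + m)) := by gcongr
      _ = 10 ^ 4 * Real.exp (C2 * m + 3 * (m * a1 + m)) := by
        rw [Real.exp_add]
        ring
  have h4 : (5000 * (1 + C0) * Real.exp (3 * (am + Real.log 2))) ^ 6 ≤
      10 ^ 24 * Real.exp (6 * (C2 * m + 3 * (m * a1 + m))) := by
    calc (5000 * (1 + C0) * Real.exp (3 * (am + Real.log 2))) ^ 6
        ≤ (10 ^ 4 * Real.exp (C2 * m + 3 * (m * a1 + m))) ^ 6 :=
          pow_le_pow_left₀ (by positivity) h3 6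
      _ = 10 ^ 24 * Real.exp (6 * (C2 * m + 3 * (m * a1 + m))) := by
        rw [mul_pow, ← Real.exp_nat_mul]
        norm_num
  have h5 : 2 * 10 ^ 24 * K ≤ Real.exp (2 * 10 ^ 24 * K * m) := by
    have e1 := Real.add_one_le_exp (2 * 10 ^ 24 * K * (m : ℝ))
    have e2 : 2 * 10 ^ 24 * K * 1 ≤ 2 * 10 ^ 24 * K * (m : ℝ) :=
      mul_le_mul_of_nonneg_left hm' (by positivity)
    linarith
  calc 2 * (K * (5000 * (1 + C0) * Real.exp (3 * (am + Real.log 2))) ^ 6)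
      ≤ 2 * (K * (10 ^ 24 * Real.exp (6 * (C2 * m + 3 * (m * a1 + m))))) := by gcongr
    _ = (2 * 10 ^ 24 * K) * Real.exp (6 * (C2 * m + 3 * (m * a1 + m))) := by ring
    _ ≤ Real.exp (2 * 10 ^ 24 * K * m) * Real.exp (6 * (C2 * m + 3 * (m * a1 + m))) := by gcongr
    _ = Real.exp ((2 * 10 ^ 24 * K + 6 * C2 + 18 * a1 + 18) * m) := by
      rw [← Real.exp_add]
      congr 1
      ring

/-- the number of steps is large -/
theorem steps (C C5 : ℝ) (m n : ℕ) (hm : 1 ≤ m) (hC5 : 0 ≤ C5) (hC : C5 + 2 ≤ C) (hC' : 701 ≤ C)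
    (h : Real.exp (C * m) ≤ n) :
    m ≤ n / m ∧ 700 ≤ n / m ∧ Real.exp (C5 * m) ≤ ((n / m : ℕ) : ℝ) := by
  have hm' : (1 : ℝ) ≤ m := by exact_mod_cast hm
  have hm0 : (0 : ℝ) < m := by linarith
  have h1 : (n : ℝ) < m * (((n / m : ℕ) : ℝ) + 1) := by
    have := Nat.lt_mul_div_succ n (show 0 < m by omega)
    exact_mod_cast this
  have h2 : (m : ℝ) ≤ Real.exp m := by
    have := Real.add_one_le_exp (m : ℝ)
    linarith
  have h3 : Real.exp ((C - 1) * m) < ((n / m : ℕ) : ℝ) + 1 := by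
    by_contra hcon
    push Not at hcon
    have e1 : (m : ℝ) * (((n / m : ℕ) : ℝ) + 1) ≤ Real.exp m * Real.exp ((C - 1) * m) :=
      mul_le_mul h2 hcon (by positivity) (Real.exp_pos _).le
    rw [← Real.exp_add] at e1
    have e2 : (m : ℝ) + (C - 1) * m = C * m := by ring
    rw [e2] at e1
    linarith
  refine ⟨?_, ?_, ?_⟩
  · have e1 : Real.exp m ≤ Real.exp ((C - 1) * m) := by
      apply Real.exp_le_exp.2
      nlinarith
    have e2 := Real.add_one_le_exp (m : ℝ)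
    have e3 : (m : ℝ) < ((n / m : ℕ) : ℝ) := by linarith
    exact_mod_cast e3.le
  · have e1 := Real.add_one_le_exp ((C - 1) * (m : ℝ))
    have e2 : (700 : ℝ) ≤ (C - 1) * m := by nlinarith
    have e3 : (700 : ℝ) < ((n / m : ℕ) : ℝ) := by linarith
    exact_mod_cast e3.le
  · have e1 : Real.exp (C5 * m) * Real.exp m ≤ Real.exp ((C - 1) * m) := by
      rw [← Real.exp_add]
      apply Real.exp_le_exp.2
      nlinarith
    have e2 : (2 : ℝ) ≤ Real.exp m := by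
      have := Real.add_one_le_exp (m : ℝ)
      linarith
    have e3 : (1 : ℝ) ≤ Real.exp (C5 * m) := Real.one_le_exp (by positivity)
    nlinarith

theorem qka (h1 : MxaStmt) (h2 : SgmStmt) (h3 : PliStmt) (h4 : Pg2Stmt) (h5 : Qd2Stmt)
    (h6 : AngStmt) (h7 : Cl2Stmt) : QkaStmt := by
  intro F hF hNP
  obtain ⟨hb, hat, hnn, hsub⟩ := h1 F hF
  obtain ⟨K, hK, hpg⟩ := h4
  obtain ⟨C2, hC2, hqd⟩ := h5 F hF
  have ha1 : 0 ≤ mg F 1 := hnn 1
  have h0 : mg F 0 ≤ 0 := mg_zero (hat 0)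
  have hC5 : 0 ≤ 2 * 10 ^ 24 * K + 6 * C2 + 18 * mg F 1 + 18 := by positivity
  obtain ⟨C5, hC5def⟩ : ∃ C5 : ℝ, C5 = 2 * 10 ^ 24 * K + 6 * C2 + 18 * mg F 1 + 18 := ⟨_, rfl⟩
  rw [← hC5def] at hC5
  refine ⟨C5 + mg F 1 + 710, by linarith, ?_⟩
  intro m n hm hn
  by_contra hcon
  push Not at hcon
  have hm' : (1 : ℝ) ≤ m := by exact_mod_cast hm
  have hm0 : (0 : ℝ) < m := by linarith
  obtain ⟨hNm, hN7, hNe⟩ := steps (C5 + mg F 1 + 710) C5 m n hm hC5 (by linarith) (by linarith) hn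
  obtain ⟨C, hC⟩ : ∃ C : ℝ, C = C5 + mg F 1 + 710 := ⟨_, rfl⟩
  rw [← hC] at hn hcon
  obtain ⟨N, hNdef⟩ : ∃ N : ℕ, N = n / m := ⟨_, rfl⟩
  rw [← hNdef] at hNm hN7 hNe
  have hN1 : 1 ≤ N := by omega
  have hN0 : (700 : ℝ) ≤ N := by exact_mod_cast hN7
  have hnpos : (0 : ℝ) < n := lt_of_lt_of_le (Real.exp_pos _) hn
  -- the bound for the multiple
  have hNmn : (N : ℝ) * m ≤ n := by
    have := Nat.div_mul_le_self n m
    rw [← hNdef] at this
    exact_mod_cast this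
  have ham0 : 0 ≤ mg F m := hnn m
  have e1 : (N : ℝ) * ((1 - 1 / 2000) * mg F m + C) ≤ mg F n := by
    have e2 : (1 - 1 / 2000) * (mg F m / m) + C / m = ((1 - 1 / 2000) * mg F m + C) / m := by
      ring
    rw [e2, div_lt_div_iff₀ hm0 hnpos] at hcon
    have e3 : 0 ≤ (1 - 1 / 2000) * mg F m + C := by
      rw [hC]
      have : (0 : ℝ) ≤ (1 - 1 / 2000) * mg F m := by positivity
      linarith
    have e4 := mul_le_mul_of_nonneg_left hNmn e3
    by_contra hc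
    push Not at hc
    have e5 := mul_lt_mul_of_pos_right hc hm0
    nlinarith
  have e2 : mg F n ≤ mg F (m * N) + N * mg F 1 := by
    have e3 : n = m * N + n % m := by
      rw [hNdef]
      exact (Nat.div_add_mod n m).symm
    have e4 := hsub (m * N) (n % m)
    rw [← e3] at e4
    have e5 : mg F (n % m) ≤ N * mg F 1 := by
      rcases Nat.eq_zero_or_pos (n % m) with h | h
      · rw [h]
        have : (0 : ℝ) ≤ N * mg F 1 := by positivity
        linarith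
      · have e6 := mul_sub hsub 1 (n % m) h
        rw [one_mul] at e6
        have e7 : ((n % m : ℕ) : ℝ) ≤ N := by
          have := Nat.mod_lt n (show 0 < m by omega)
          exact_mod_cast (by omega : n % m ≤ N)
        have e8 := mul_le_mul_of_nonneg_right e7 ha1
        linarith
    linarith
  obtain ⟨A, hA⟩ : ∃ A : ℝ, A = (1 - 1 / 2000) * mg F m + C - mg F 1 := ⟨_, rfl⟩
  have e3 : (N : ℝ) * A ≤ mg F (m * N) := by
    rw [hA]
    nlinarith
  have hl2 : Real.log 2 ≤ 1 := by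
    have := Real.log_two_lt_d9
    linarith
  have hl0 : 0 ≤ Real.log 2 := Real.log_nonneg (by norm_num)
  have hAm : A ≤ mg F m := by
    have e4 := mul_sub hsub m N hN1
    have e5 : (N : ℝ) * A ≤ N * mg F m := e3.trans e4
    exact le_of_mul_le_mul_left e5 (by linarith)
  have hA4 : 4 ≤ A := by
    rw [hA, hC]
    have : (0 : ℝ) ≤ (1 - 1 / 2000) * mg F m := by positivity
    linarith
  obtain ⟨D, hD⟩ : ∃ D : ℝ, D = mg F m + Real.log 2 := ⟨_, rfl⟩
  have hD4 : 4 ≤ D := by linarith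
  have hDA : D - A ≤ D / 2000 := by
    rw [hD, hA, hC]
    linarith
  have hexpD : Real.exp D / 2 = Real.exp (mg F m) := by
    rw [hD, Real.exp_add, Real.exp_log (by norm_num : (0 : ℝ) < 2)]
    ring
  -- the iterate
  have hg : Cs (F^[m]) := H88.cs_iter hF m
  have hbd : ∀ z, ‖fderiv ℝ (F^[m]) z‖ ≤ Real.exp D / 2 := by
    intro z
    rw [hexpD]
    exact hb m z
  obtain ⟨z, hz⟩ := hat (m * N)
  have hz' : Real.exp (A * N) ≤ ‖fderiv ℝ ((F^[m])^[N]) z‖ := by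
    rw [← Function.iterate_mul, hz]
    apply Real.exp_le_exp.2
    linarith
  obtain ⟨x, e, f, α, β, hS, hsum⟩ := h2 (F^[m]) A D N z hg hbd (by linarith) hN1 hz'
  have hang := h6 (F^[m]) D N x e f α β hg hbd (by linarith) hS
  have hle : ∑ i ∈ Finset.range N, df D α β i ≤ D / 100 * (N : ℝ) / 4 := by
    refine hsum.trans ?_
    have a1 : 2 * (D - A) * N ≤ D / 1000 * N := by
      have : 2 * (D - A) ≤ D / 1000 := by linarith
      exact mul_le_mul_of_nonneg_right this (by linarith)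
    have a2 : 4 * 700 ≤ D * N := by nlinarith
    nlinarith
  obtain ⟨T, hT, hTj⟩ := h3 (df D α β) (D / 100) N (by linarith) hang.1 hle
  -- the closing
  obtain ⟨C0, hC0, hC0', hq⟩ := hqd m hm
  obtain ⟨W, hW⟩ : ∃ W : ℝ, W = 5000 * (1 + C0) * Real.exp (3 * D) := ⟨_, rfl⟩
  have hW0 : 0 < W := by
    rw [hW]
    positivity
  have hW1 : 1 ≤ W := by
    rw [hW]
    have : 1 ≤ Real.exp (3 * D) := Real.one_le_exp (by linarith)
    nlinarith
  have hρ0 : 0 < W⁻¹ := inv_pos.2 hW0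
  have hρ1 : W⁻¹ ≤ 1 := inv_le_one_of_one_le₀ hW1
  have ham : mg F m ≤ m * mg F 1 := by
    have := mul_sub hsub 1 m hm
    rwa [one_mul] at this
  have hbig := big K C2 (mg F 1) (mg F m) C0 m hm hK hC2 ham hC0 hC0'
  rw [← hC5def, ← hD, ← hW] at hbig
  have hKT : K / (W⁻¹) ^ 6 ≤ T.card := by
    have b1 : K / (W⁻¹) ^ 6 = K * W ^ 6 := by
      rw [inv_pow, div_inv_eq_mul]
    rw [b1]
    have b2 : (N : ℝ) ≤ 2 * T.card := by exact_mod_cast hT
    linarith
  obtain ⟨j, hj, j', hj', hjj, ⟨a, b, hab⟩, he, hf⟩ := hpg W⁻¹ T x e f hρ0 hρ1 hKT (fun i hi =>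
    ⟨hS.e1 i (hTj i hi).1.le, hS.f1 i (hTj i hi).1.le⟩)
  have hWW : 5000 * (1 + C0) * Real.exp (3 * D) * W⁻¹ ≤ 1 := by
    rw [← hW, mul_inv_cancel₀ hW0.ne']
  obtain ⟨y, hy⟩ := h7 (F^[m]) D C0 W⁻¹ hg hbd hD4 hC0 hq hρ0 hWW N x e f α β hS j j' hjj
    (hTj j' hj').1 (hTj j hj).2 (hTj j' hj').2 a b hab he hf
  rw [← Function.iterate_mul] at hy
  exact hNP (m * (j' - j)) a b y (Nat.mul_pos hm (by omega)) hy

end Pool.Agent.KTK.H60
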